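import Pool.Agent.helper25.HH.SpecE

/-!
# MP_07c750, project HH, row MEA (helper61): the mean entropy
-/

set_option autoImplicit false

open MeasureTheory Filter Set

namespace Pool.Agent.HH

theorem MEA_int {X : Type} [MeasurableSpace X] (μ : Measure X) [IsProbabilityMeasure μ] (f : X → ℝ) (m : ℝ)
    (hf : Measurable f) (h0 : ∀ x, |f x| ≤ m) : Integrable f μ :=
  Integrable.of_bound hf.aestronglyMeasurable m (Filter.Eventually.of_forall fun x => by
    rw [Real.norm_eq_abs]
    exact h0 x)

theorem MEA_proof : MEA_stmt := by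
  classical
  intro c ρ0 ε0 hc hc2 hρ hρ2 hε
  set t : ℝ := ρ0 * c / 2 with ht
  have ht0 : 0 < t := by positivity
  have ht1 : t ≤ 1 / 8 := by
    have : ρ0 * c ≤ 1 / 2 * (1 / 2) := mul_le_mul hρ2 hc2 hc.le (by norm_num)
    linarith
  refine ⟨min (ρ0 * c / 4) (ε0 * t * t / 100), lt_min (by positivity) (by positivity), ?_⟩
  intro X _ μ f hμ hf hf01 hρ0 hε0 hmean
  have hm1 : min (ρ0 * c / 4) (ε0 * t * t / 100) ≤ ρ0 * c / 4 := min_le_left _ _
  have hm2 : min (ρ0 * c / 4) (ε0 * t * t / 100) ≤ ε0 * t * t / 100 := min_le_right _ _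
  have hS1 : MeasurableSet {x | ρ0 < f x} := measurableSet_lt measurable_const hf
  have hS2 : MeasurableSet {x | 1 - t < f x} := measurableSet_lt measurable_const hf
  have hS3 : MeasurableSet {x | 1 / 2 + ε0 < f x} := measurableSet_lt measurable_const hf
  have hS4 : MeasurableSet {x | 1 / 2 + ε0 < f x ∧ f x ≤ 1 - t} :=
    hS3.inter (measurableSet_le hf measurable_const)
  have hA1 : 1 / 2 + c ≤ μ.real {x | ρ0 < f x} := by
    have h1 : {x | ρ0 < f x} = {x | f x ≤ ρ0}ᶜ := by
      ext x
      simp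
    rw [h1, measureReal_compl (measurableSet_le hf measurable_const), probReal_univ]
    linarith
  have hA3 : 1 / 2 ≤ μ.real {x | 1 / 2 + ε0 < f x} := by
    have h1 : {x | 1 / 2 + ε0 < f x} = {x | f x ≤ 1 / 2 + ε0}ᶜ := by
      ext x
      simp
    rw [h1, measureReal_compl (measurableSet_le hf measurable_const), probReal_univ]
    linarith
  by_cases hcase : t ≤ μ.real {x | 1 / 2 + ε0 < f x ∧ f x ≤ 1 - t}
  · -- the middle values have some mass
    have h2 : 2 * ε0 * t * μ.real {x | 1 / 2 + ε0 < f x ∧ f x ≤ 1 - t} ≤ ∫ x, max 0 ((2 * f x - 1) * (1 - f x)) ∂μ := by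
      have h3 : ∫ x, ({x | 1 / 2 + ε0 < f x ∧ f x ≤ 1 - t}.indicator (fun _ => 2 * ε0 * t)) x ∂μ =
          2 * ε0 * t * μ.real {x | 1 / 2 + ε0 < f x ∧ f x ≤ 1 - t} := by
        rw [integral_indicator_const _ hS4, smul_eq_mul, mul_comm]
      rw [← h3]
      have hg : Measurable (fun x => max 0 ((2 * f x - 1) * (1 - f x))) :=
        measurable_const.max (((hf.const_mul 2).sub_const 1).mul (measurable_const.sub hf))
      refine integral_mono ?_ (MEA_int μ _ 1 hg ?_) ?_
      · exact (integrable_const _).indicator hS4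
      · intro x
        have h5 := hf01 x
        rw [abs_of_nonneg (le_max_left _ _)]
        refine max_le (by norm_num) ?_
        nlinarith
      · intro x
        by_cases hx : x ∈ {x | 1 / 2 + ε0 < f x ∧ f x ≤ 1 - t}
        · rw [Set.indicator_of_mem hx]
          refine le_trans ?_ (le_max_right _ _)
          have h6 : 2 * ε0 ≤ 2 * f x - 1 := by linarith [hx.1]
          have h7 : t ≤ 1 - f x := by linarith [hx.2]
          exact mul_le_mul h6 h7 ht0.le (by linarith)
        · rw [Set.indicator_of_notMem hx]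
          exact le_max_left _ _
    have h8 : 2 * ε0 * t * t ≤ 2 * ε0 * t * μ.real {x | 1 / 2 + ε0 < f x ∧ f x ≤ 1 - t} :=
      mul_le_mul_of_nonneg_left hcase (by positivity)
    linarith
  · have hcase' : μ.real {x | 1 / 2 + ε0 < f x ∧ f x ≤ 1 - t} < t := not_le.1 hcase
    have hA2 : 1 / 2 - t ≤ μ.real {x | 1 - t < f x} := by
      have h1 : {x | 1 / 2 + ε0 < f x} ⊆ {x | 1 / 2 + ε0 < f x ∧ f x ≤ 1 - t} ∪ {x | 1 - t < f x} := by
        intro x hx
        by_cases h2 : f x ≤ 1 - t
        · exact Or.inl ⟨hx, h2⟩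
        · exact Or.inr (not_le.1 h2)
      have h2 := (measureReal_mono h1 (μ := μ)).trans (measureReal_union_le _ _)
      linarith
    have h3 : ∫ x, (({x | ρ0 < f x}.indicator (fun _ => ρ0)) x + ({x | 1 - t < f x}.indicator (fun _ => 1 - t - ρ0)) x) ∂μ =
        ρ0 * μ.real {x | ρ0 < f x} + (1 - t - ρ0) * μ.real {x | 1 - t < f x} := by
      rw [integral_add ((integrable_const _).indicator hS1) ((integrable_const _).indicator hS2),
        integral_indicator_const _ hS1, integral_indicator_const _ hS2, smul_eq_mul, smul_eq_mul, mul_comm, mul_comm (1 - t - ρ0)]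
    have h4 : ρ0 * μ.real {x | ρ0 < f x} + (1 - t - ρ0) * μ.real {x | 1 - t < f x} ≤ ∫ x, f x ∂μ := by
      rw [← h3]
      refine integral_mono (((integrable_const _).indicator hS1).add ((integrable_const _).indicator hS2))
        (MEA_int μ f 1 hf fun x => by rw [abs_of_nonneg (hf01 x).1]; exact (hf01 x).2) ?_
      intro x
      change ({x | ρ0 < f x}.indicator (fun _ => ρ0)) x + ({x | 1 - t < f x}.indicator (fun _ => 1 - t - ρ0)) x ≤ f x
      by_cases h5 : x ∈ {x | 1 - t < f x}
      · have h6 : x ∈ {x | ρ0 < f x} := by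
          have h7 : 1 - t < f x := h5
          change ρ0 < f x
          linarith
        have h7 : 1 - t < f x := h5
        rw [Set.indicator_of_mem h5, Set.indicator_of_mem h6]
        linarith
      · rw [Set.indicator_of_notMem h5, add_zero]
        by_cases h6 : x ∈ {x | ρ0 < f x}
        · rw [Set.indicator_of_mem h6]
          exact le_of_lt h6
        · rw [Set.indicator_of_notMem h6]
          exact (hf01 x).1
    have h5 : ρ0 * (1 / 2 + c) ≤ ρ0 * μ.real {x | ρ0 < f x} := mul_le_mul_of_nonneg_left hA1 hρ.le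
    have h6 : (1 - t - ρ0) * (1 / 2 - t) ≤ (1 - t - ρ0) * μ.real {x | 1 - t < f x} :=
      mul_le_mul_of_nonneg_left hA2 (by linarith)
    have h7 : 1 / 2 + ρ0 * c / 4 ≤ ρ0 * (1 / 2 + c) + (1 - t - ρ0) * (1 / 2 - t) := by
      have h8 : ρ0 * (1 / 2 + c) + (1 - t - ρ0) * (1 / 2 - t) = 1 / 2 + ρ0 * c - t / 2 - t + t * t + ρ0 * t := by ring
      have h9 : 0 ≤ t * t := by positivity
      have h10 : 0 ≤ ρ0 * t := by positivity
      rw [h8]
      linarith
    linarith

end Pool.Agent.HH
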